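import Pool.Agent.helper76.FF2.Spec

set_option autoImplicit false

namespace Pool.Agent.FF2

open Polynomial

theorem PWS_hd2 {K : Type*} [Field K] (f g : K[X]) :
    hasseDeriv 2 (f * g) = f * hasseDeriv 2 g + derivative f * derivative g + hasseDeriv 2 f * g := by
  rw [hasseDeriv_mul, Finset.Nat.sum_antidiagonal_eq_sum_range_succ
    (fun i j => hasseDeriv i f * hasseDeriv j g)]
  rw [Finset.sum_range_succ, Finset.sum_range_succ, Finset.sum_range_succ, Finset.sum_range_zero]
  have h21 : 2 - 1 = 1 := rfl
  simp only [Nat.sub_zero, Nat.sub_self, h21, hasseDeriv_zero, hasseDeriv_one, LinearMap.id_coe,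
    id_eq, zero_add]

theorem PWS_hd3 {K : Type*} [Field K] (f g : K[X]) :
    hasseDeriv 3 (f * g) = f * hasseDeriv 3 g + derivative f * hasseDeriv 2 g +
      hasseDeriv 2 f * derivative g + hasseDeriv 3 f * g := by
  rw [hasseDeriv_mul, Finset.Nat.sum_antidiagonal_eq_sum_range_succ
    (fun i j => hasseDeriv i f * hasseDeriv j g)]
  rw [Finset.sum_range_succ, Finset.sum_range_succ, Finset.sum_range_succ, Finset.sum_range_succ,
    Finset.sum_range_zero]
  have h31 : 3 - 1 = 2 := rfl
  have h32 : 3 - 2 = 1 := rfl
  simp only [Nat.sub_zero, Nat.sub_self, h31, h32, hasseDeriv_zero, hasseDeriv_one,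
    LinearMap.id_coe, id_eq, zero_add]

theorem PWS_lin {K : Type*} [Field K] (a : K) (k : ℕ) (hk : 2 ≤ k) :
    hasseDeriv k (X - C a : K[X]) = 0 := by
  ext j
  rw [hasseDeriv_coeff, coeff_sub, coeff_X, coeff_C, coeff_zero]
  rw [if_neg (by omega), if_neg (by omega), sub_zero, mul_zero]

theorem PWS (K : Type*) [Field K] [CharP K 2] (h1 : E2A_stmt K) : PWS_stmt K := by
  classical
  obtain ⟨hE0, hEc, -⟩ := h1
  have h2 : (2 : K) = 0 := CharTwo.two_eq_zero
  intro R b
  induction R using Finset.cons_induction with
  | empty =>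
    intro _
    have hp : pol (∅ : Finset K) = 1 := by rw [pol, Finset.prod_empty]
    have hh : ∀ k : ℕ, 1 ≤ k → hasseDeriv k (1 : K[X]) = 0 := fun k hk =>
      hasseDeriv_apply_one k hk
    rw [hp, hh 2 (by norm_num), hh 3 (by norm_num), hE0]
    simp
  | cons a R ha ih =>
    intro hb
    rw [Finset.mem_cons, not_or] at hb
    obtain ⟨hba, hbR⟩ := hb
    obtain ⟨i0, i1, i2, i3⟩ := ih hbR
    have hpol : pol (Finset.cons a R ha) = (X - C a) * pol R := by
      rw [pol, Finset.prod_cons]
      rfl
    have hu : a + b ≠ 0 := by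
      intro h
      exact hba (CharTwo.add_eq_zero.1 h).symm
    have hba' : b - a = a + b := by
      rw [CharTwo.sub_eq_add, add_comm]
    have q0 : (pol (Finset.cons a R ha)).eval b = (a + b) * (pol R).eval b := by
      rw [hpol, eval_mul, eval_sub, eval_X, eval_C, hba']
    have q1 : (derivative (pol (Finset.cons a R ha))).eval b =
        (a + b) * (derivative (pol R)).eval b + (pol R).eval b := by
      rw [hpol, derivative_mul, derivative_sub, derivative_X, derivative_C, eval_add, eval_mul,
        eval_mul, eval_sub, eval_sub, eval_X, eval_C, hba', eval_one, eval_zero]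
      ring
    have q2 : (hasseDeriv 2 (pol (Finset.cons a R ha))).eval b =
        (a + b) * (hasseDeriv 2 (pol R)).eval b + (derivative (pol R)).eval b := by
      rw [hpol, PWS_hd2, PWS_lin a 2 le_rfl, derivative_sub, derivative_X, derivative_C, zero_mul,
        add_zero, eval_add, eval_mul, eval_mul, eval_sub, eval_sub, eval_X, eval_C, hba', eval_one,
        eval_zero]
      ring
    have q3 : (hasseDeriv 3 (pol (Finset.cons a R ha))).eval b =
        (a + b) * (hasseDeriv 3 (pol R)).eval b + (hasseDeriv 2 (pol R)).eval b := by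
      rw [hpol, PWS_hd3, PWS_lin a 2 le_rfl, PWS_lin a 3 (by norm_num), derivative_sub,
        derivative_X, derivative_C, zero_mul, zero_mul, add_zero, add_zero, eval_add, eval_mul,
        eval_mul, eval_sub, eval_sub, eval_X, eval_C, hba', eval_one, eval_zero]
      ring
    have hq0 : (pol (Finset.cons a R ha)).eval b ≠ 0 := by
      rw [q0]
      exact mul_ne_zero hu i0
    set g0 := (pol R).eval b with hg0
    set g1 := (derivative (pol R)).eval b with hg1
    set g2 := (hasseDeriv 2 (pol R)).eval b with hg2
    set g3 := (hasseDeriv 3 (pol R)).eval b with hg3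
    have r1 : (derivative (pol (Finset.cons a R ha))).eval b /
        (pol (Finset.cons a R ha)).eval b = 1 / (a + b) + g1 / g0 := by
      rw [q0, q1]
      field_simp
      ring
    have r2 : (hasseDeriv 2 (pol (Finset.cons a R ha))).eval b /
        (pol (Finset.cons a R ha)).eval b = g2 / g0 + 1 / (a + b) * (g1 / g0) := by
      rw [q0, q2]
      field_simp
    have r3 : (hasseDeriv 3 (pol (Finset.cons a R ha))).eval b /
        (pol (Finset.cons a R ha)).eval b = g3 / g0 + 1 / (a + b) * (g2 / g0) := by
      rw [q0, q3]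
      field_simp
    refine ⟨hq0, ?_, ?_, ?_⟩
    · rw [Finset.sum_cons, i1, r1]
    · rw [hEc, i2, i1, r2]
    · rw [Finset.sum_cons, i3, r1, r2, r3]
      generalize 1 / (a + b) = v
      generalize g1 / g0 = x1
      generalize g2 / g0 = x2
      generalize g3 / g0 = x3
      linear_combination (-(2 * v ^ 2 * x1 + 2 * v * x1 ^ 2 + v * x2)) * h2

end Pool.Agent.FF2
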