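import Pool.Agent.helper76.FF2.Spec

set_option autoImplicit false

namespace Pool.Agent.FF2

open Polynomial

theorem ZRT_hd2 {K : Type*} [Field K] (f g : K[X]) :
    hasseDeriv 2 (f * g) = f * hasseDeriv 2 g + derivative f * derivative g + hasseDeriv 2 f * g := by
  rw [hasseDeriv_mul, Finset.Nat.sum_antidiagonal_eq_sum_range_succ
    (fun i j => hasseDeriv i f * hasseDeriv j g)]
  rw [Finset.sum_range_succ, Finset.sum_range_succ, Finset.sum_range_succ, Finset.sum_range_zero]
  have h21 : 2 - 1 = 1 := rfl
  simp only [Nat.sub_zero, Nat.sub_self, h21, hasseDeriv_zero, hasseDeriv_one, LinearMap.id_coe,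
    id_eq, zero_add]

theorem ZRT (K : Type*) [Field K] [CharP K 2] (h1 : PWS_stmt K) : ZRT_stmt K := by
  classical
  intro A H s R hAH hH1 hH2 x hx hs
  obtain ⟨R', hxR, rfl⟩ : ∃ (R' : Finset K) (h : x ∉ R'), R = Finset.cons x R' h := by
    refine ⟨R.erase x, Finset.notMem_erase x R, ?_⟩
    rw [Finset.cons_eq_insert, Finset.insert_erase hx]
  obtain ⟨hQ0, hQ1, -, -⟩ := h1 R' x hxR
  have hpol : pol (Finset.cons x R' hxR) = (X - C x) * pol R' := by
    rw [pol, Finset.prod_cons]
    rfl
  have hd1 : (derivative (pol (Finset.cons x R' hxR))).eval x = (pol R').eval x := by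
    rw [hpol, derivative_mul]
    simp
  have hp0 : (pol (Finset.cons x R' hxR)).eval x = 0 := by
    rw [hpol]
    simp
  have hhd : hasseDeriv 2 (X - C x : K[X]) = 0 := by
    ext k
    rw [hasseDeriv_coeff, coeff_sub, coeff_X, coeff_C, coeff_zero]
    rw [if_neg (by omega), if_neg (by omega), sub_zero, mul_zero]
  have hd2 : (hasseDeriv 2 (pol (Finset.cons x R' hxR))).eval x = (derivative (pol R')).eval x := by
    rw [hpol, ZRT_hd2, hhd]
    simp
  have hA : A = s * pol (Finset.cons x R' hxR) + H := by
    rw [← hAH, add_assoc, CharTwo.add_self_eq_zero, add_zero]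
  have hA1 : (derivative A).eval x = s.eval x * (pol R').eval x := by
    rw [hA, derivative_add, hH1, add_zero, derivative_mul, eval_add, eval_mul, eval_mul, hp0, hd1,
      mul_zero, zero_add]
  have hA2 : (hasseDeriv 2 A).eval x =
      s.eval x * (derivative (pol R')).eval x + (derivative s).eval x * (pol R').eval x := by
    rw [hA, map_add, hH2, add_zero, ZRT_hd2, eval_add, eval_add, eval_mul, eval_mul, eval_mul, hp0,
      hd1, hd2, mul_zero, add_zero]
  refine ⟨by rw [hd1]; exact hQ0, by rw [hd1, hA1], ?_⟩
  have hz : zr (Finset.cons x R' hxR) x = x * ((derivative (pol R')).eval x / (pol R').eval x) := by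
    rw [zr, Finset.sum_cons, CharTwo.add_self_eq_zero, div_zero, zero_add, ← hQ1, Finset.mul_sum]
    refine Finset.sum_congr rfl fun y _ => ?_
    rw [add_comm x y, mul_one_div]
  rw [hz, hA1, hA2]
  congr 1
  have h2 : (derivative s).eval x / s.eval x + (derivative s).eval x / s.eval x = 0 :=
    CharTwo.add_self_eq_zero _
  have h3 : (s.eval x * (derivative (pol R')).eval x + (derivative s).eval x * (pol R').eval x) /
      (s.eval x * (pol R').eval x) =
      (derivative (pol R')).eval x / (pol R').eval x + (derivative s).eval x / s.eval x := by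
    field_simp
  rw [h3, add_assoc, h2, add_zero]

end Pool.Agent.FF2
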